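import Pool.Agent.AIP.Cost

/-!
# Real interactive proofs with verifiers affine in the messages are not closed under complement

The model (programs, runs, provers, time) is defined in `Pool.Agent.AIP.Machine`, the language
`Lang` in `Pool.Agent.AIP.Lang`.
-/

namespace Pool.Agent.Results.MP_80a57c_lc.AffineNotClosed

open AIP

/-- `Lang` has an interactive protocol with an additive polynomial time verifier (no order tests, no
products), but its complement has no protocol with a polynomial time verifier that is affine in
the prover's messages. More precisely: if a program, which may depend on the number `n` of real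
inputs, stops within `T ≤ (2^n - 8) / 18` steps and some prover is accepted with probability
at least `a` for every input outside `Lang n`, then this also holds for an input in `Lang n`. -/
theorem result :
    (∃ c : Cmd, c.Additive ∧ Decides c Lang) ∧
    (¬ ∃ c : Cmd, Decides c fun n => (Lang n)ᶜ) ∧
    ∀ n ≥ 2, ∀ (c : Cmd) (T : ℕ), 18 * T + 8 ≤ 2 ^ n →
      (∀ x : Fin n → ℝ, (comput c x).TimeLE T) → ∀ a : ℝ,
      (∀ x ∉ Lang n, ∃ P, a ≤ (comput c x).acc P) → ∃ x ∈ Lang n, ∃ P, a ≤ (comput c x).acc P :=
  ⟨⟨topCmd, lin_top, top_decides⟩, fun ⟨c, hc⟩ => not_decides c hc,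
    fun _ hn c T hT htime a hc => lower_prog hn c T hT htime a hc⟩

end Pool.Agent.Results.MP_80a57c_lc.AffineNotClosed
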