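import Pool.Agent.IPR.Main

namespace Pool.Agent.Results.MP_80a57c_lc.BooleanOracles

open Pool.Agent.IPR

theorem result :
    (∀ (A : Set (List Bool)) (L : Set (List ℝ)), InC true A L → InIP L) ∧
    (∀ (A : Set (List Bool)) (L : Set (List ℝ)), InC false A L → InIP L ∧ InIP Lᶜ) ∧
    (∀ B : Set (List Bool), InIP (emb B) ∧ InIP (emb B)ᶜ) := by
  have h1 : ∀ (A : Set (List Bool)) (L : Set (List ℝ)), InC false A L → InIP L ∧ InIP Lᶜ :=
    fun A L h => ⟨np_le_ip A L (p_le_np A L h), np_le_ip A Lᶜ (p_le_np A Lᶜ (p_compl A L h))⟩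
  exact ⟨np_le_ip, h1, fun B => h1 B (emb B) (bool_p B)⟩

end Pool.Agent.Results.MP_80a57c_lc.BooleanOracles
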