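import Mathlib
import Pool.Agent.RIP.IntMain

/-!
# Real interactive proofs with the oracle `ℤ` are not closed under complement

Relative to the oracle `ℤ` (Blum-Shub-Smale machines which may test whether a real is an integer)
the rational numbers have a real interactive proof (even an `NP` proof). Their complement has no
real interactive protocol, with any completeness `c` and soundness error `s < c`, relative to any
oracle all of whose slices are both `Fσ` and `Gδ`.
-/

set_option autoImplicit false

namespace Pool.Agent.Results.MP_80a57c_lc.IntegerOracle

open Pool.Agent.RIP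

theorem result :
    (ratWords ∈ NP intOracle ∧ ratWords ∈ IP intOracle ∧ ∀ n, Dl (slice intOracle n)) ∧
    ∀ O : Set (List ℝ), (∀ n, Dl (slice O n)) →
      ∀ (Q : List Instr) (m k t : ℕ → ℕ) (c s : ℝ), s < c →
        ¬ Protocol O Q m k t ratWordsᶜ c s :=
  ⟨⟨ratWords_NP, ratWords_IP, int_slices⟩, compl_not_protocol_of⟩

end Pool.Agent.Results.MP_80a57c_lc.IntegerOracle
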