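import Mathlib
import Pool.Agent.OIP.Collapse

set_option autoImplicit false

/-!
# Relative to an oracle, real interactive proofs are closed under complement (MP_80a57c_lc)

The model (real machines, verifiers, provers, protocols relative to an oracle) is defined in
`Pool.Agent.OIP.Model`, deterministic polynomial time (`InP`) in `Pool.Agent.OIP.Pad`.
-/

namespace Pool.Agent.Results.MP_80a57c_lc.OracleClosure

open Pool.Agent.OIP

/-- For every `A` there is an oracle `O`, containing a copy of `A`, relative to which the class of
real interactive proofs is closed under complement: if `L` has a polynomial time protocol with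
completeness `c` and soundness error `s < c`, then `L` and its complement are decided in
deterministic polynomial time and have protocols without errors. This holds even if the verifier
for `L` may use a different program (with polynomial resources) and different errors for each
input size. -/
theorem result (A : Set (List ℝ)) : ∃ O : Set (List ℝ),
    (∀ z : List ℝ, 1 :: z ∈ O ↔ z ∈ A) ∧
    (∀ (L : Set (List ℝ)) (c s : ℝ), s < c → HasProtocol O c s L → HasProtocol O 1 0 Lᶜ) ∧
    ∀ (V : Verifier) (e : ℕ), V.BoundedBy e → ∀ (c s : ℕ → ℝ), (∀ n, s n < c n) →
      ∀ L : Set (List ℝ), V.Decides O c s L → InP O L ∧ InP O Lᶜ := by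
  refine ⟨orc A, one_cons_mem_orc A, ?_, fun V e hV c s hcs L hL =>
    ⟨(orc_collapse A hV hcs hL).1.1, (orc_collapse A hV hcs hL).2.1⟩⟩
  rintro L c s hcs ⟨V, hV, -, hD⟩
  obtain ⟨e, he⟩ := hV.bounded
  exact (orc_collapse A he (fun _ => hcs) hD).2.2

end Pool.Agent.Results.MP_80a57c_lc.OracleClosure
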